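import Mathlib
import Pool.Agent.N848.OL.Stm

/-!
# OL/CNJ: integrality at all primes above `v` is invariant under the Galois group
-/

set_option autoImplicit false

namespace Pool.Agent.N727.OL

open NumberField IsDedekindDomain Module

/-- transport of integrality along an automorphism -/
theorem le_one_of {K : Type} [Field K] [NumberField K] (e : 𝓞 K ≃+* 𝓞 K) (σ : K ≃+* K)
    (hσ : ∀ a : 𝓞 K, ((e a : 𝓞 K) : K) = σ (a : K)) (w w' : HeightOneSpectrum (𝓞 K))
    (hw : ∀ a : 𝓞 K, a ∈ w'.asIdeal ↔ e a ∈ w.asIdeal) (z : K) (hz : w'.valuation K z ≤ 1) :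
    w.valuation K (σ z) ≤ 1 := by
  obtain ⟨a, s, hs⟩ := w'.exists_primeCompl_mul_eq_of_integer (K := K) z hz
  have h1 : (e s : 𝓞 K) ∉ w.asIdeal := fun h => s.2 ((hw _).2 h)
  have h2 : w.valuation K ((e (s : 𝓞 K) : 𝓞 K) : K) = 1 :=
    (w.valuation_eq_one_iff_notMem).2 h1
  have h3 : w.valuation K ((e a : 𝓞 K) : K) ≤ 1 := w.valuation_le_one _
  have h4 : ((e (s : 𝓞 K) : 𝓞 K) : K) * σ z = ((e a : 𝓞 K) : K) := by
    rw [hσ, hσ, ← map_mul, mul_comm]
    exact congrArg σ hs
  rw [← h4, map_mul, h2, one_mul] at h3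
  exact h3

theorem t_CNJ : Pool.Agent.N848.OL.S_CNJ := by
  intro K K' _ _ _ _ _ v c x hx σ w hw
  classical
  let e : 𝓞 K' ≃+* 𝓞 K' := NumberField.RingOfIntegers.mapRingEquiv σ
  have hσ : ∀ a : 𝓞 K', ((e a : 𝓞 K') : K') = (σ : K' ≃+* K') (a : K') := fun a => rfl
  let w' : HeightOneSpectrum (𝓞 K') :=
    { asIdeal := w.asIdeal.comap (e : 𝓞 K' →+* 𝓞 K')
      isPrime := Ideal.comap_isPrime _ _
      ne_bot := by
        intro h
        apply w.ne_bot
        rw [eq_bot_iff]
        intro a ha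
        have h1 : e.symm a ∈ w.asIdeal.comap (e : 𝓞 K' →+* 𝓞 K') := by
          rw [Ideal.mem_comap]
          simpa using ha
        rw [h] at h1
        have h2 : e.symm a = 0 := by simpa using h1
        have h3 : a = 0 := by simpa using h2
        simpa using h3 }
  have hmem : ∀ a : 𝓞 K', a ∈ w'.asIdeal ↔ e a ∈ w.asIdeal := fun a => Iff.rfl
  have hw' : Pool.Agent.N848.LT.Ab w' v := by
    unfold Pool.Agent.N848.LT.Ab at hw ⊢
    rw [← hw]
    ext a
    have h5 : e (algebraMap (𝓞 K) (𝓞 K') a) = algebraMap (𝓞 K) (𝓞 K') a := by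
      apply RingOfIntegers.ext
      rw [hσ]
      exact σ.commutes (a : K)
    have h6 : a ∈ Ideal.comap (algebraMap (𝓞 K) (𝓞 K')) w'.asIdeal ↔
        e (algebraMap (𝓞 K) (𝓞 K') a) ∈ w.asIdeal := by
      rw [Ideal.mem_comap]
      exact hmem _
    rw [h6, h5, Ideal.mem_comap]
  have h0 := hx w' hw'
  rcases eq_or_ne c 0 with rfl | hc
  · have h1 : x = 0 := by
      rw [map_zero, map_zero, le_zero_iff, map_eq_zero] at h0
      exact h0
    rw [h1, map_zero, map_zero, map_zero, map_zero]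
  · have hc' : algebraMap K K' c ≠ 0 := by
      intro h
      exact hc ((map_eq_zero _).1 h)
    have h1 : w'.valuation K' (x / algebraMap K K' c) ≤ 1 := by
      rw [map_div₀]
      exact div_le_one_of_le₀ h0 zero_le
    have h2 := le_one_of e (σ : K' ≃+* K') hσ w w' hmem _ h1
    have h3 : (σ : K' ≃+* K') (x / algebraMap K K' c) = σ x / algebraMap K K' c := by
      rw [map_div₀]
      congr 1
      exact σ.commutes c
    rw [h3, map_div₀] at h2
    have h4 : w.valuation K' (algebraMap K K' c) ≠ 0 := by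
      rw [Ne, map_eq_zero]
      exact hc'
    exact (div_le_one₀ (zero_lt_iff.2 h4)).1 h2

end Pool.Agent.N727.OL
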