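import Mathlib
import Pool.Agent.N848.OL.Stm

/-!
# OL/HLP: Hilbert 90
-/

set_option autoImplicit false

namespace Pool.Agent.N727.OL

open NumberField IsDedekindDomain Module

theorem t_HLP : Pool.Agent.N848.OL.S_HLP := by
  intro p _ K K' _ _ _ _ _ hGal hmu σ hσ f h hf hh hfh
  have := hGal
  have : FiniteDimensional K K' := by
    have : IsScalarTower ℚ K K' := inferInstance
    exact Module.Finite.of_restrictScalars_finite ℚ K K'
  have hz : ∀ x : K' ≃ₐ[K] K', x ∈ Subgroup.zpowers σ := by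
    intro τ
    obtain ⟨i, hi⟩ := hσ τ
    rw [hi]
    exact Subgroup.npow_mem_zpowers _ _
  have : IsCyclic (K' ≃ₐ[K] K') := ⟨⟨σ, hz⟩⟩
  have hp : p ≠ 0 := (Fact.out : p.Prime).ne_zero
  have hN : Algebra.norm K h = 1 := by
    have h1 : Algebra.norm K (σ f) = Algebra.norm K f := Algebra.norm_eq_of_algEquiv σ f
    rw [hfh, map_mul, map_pow] at h1
    have h2 : Algebra.norm K f ≠ 0 := Algebra.norm_ne_zero_iff.2 hf
    have h3 : Algebra.norm K h ^ p = 1 := by
      have : Algebra.norm K f * Algebra.norm K h ^ p = Algebra.norm K f * 1 := by rw [h1, mul_one]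
      exact mul_left_cancel₀ h2 this
    have h4 : algebraMap K K' (Algebra.norm K h) = 1 := by
      apply hmu
      rw [← map_pow, h3, map_one]
    rw [← map_one (algebraMap K K')] at h4
    exact (algebraMap K K').injective h4
  obtain ⟨y, hy⟩ := groupCohomology.exists_div_of_norm_eq_one hz hN
  have hy0 : (y : K') ≠ 0 := y.ne_zero
  have hsy : σ (y : K') ≠ 0 := by
    intro h0
    exact hy0 ((map_eq_zero σ).1 h0)
  have hfix : σ (f * (y : K') ^ p) = f * (y : K') ^ p := by
    rw [map_mul, map_pow, hfh, ← hy, mul_assoc, ← mul_pow, div_mul_cancel₀ _ hsy]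
  have hfixn : ∀ i : ℕ, (σ ^ i) (f * (y : K') ^ p) = f * (y : K') ^ p := by
    intro i
    induction i with
    | zero => simp
    | succ i ih => rw [pow_succ', AlgEquiv.mul_apply, ih, hfix]
  have hmem : f * (y : K') ^ p ∈ (⊥ : IntermediateField K K') := by
    rw [IsGalois.mem_bot_iff_fixed]
    intro τ
    obtain ⟨i, hi⟩ := hσ τ
    rw [hi]
    exact hfixn i
  obtain ⟨b, hb⟩ := IntermediateField.mem_bot.1 hmem
  refine ⟨b, (y : K')⁻¹, ?_, inv_ne_zero hy0, ?_⟩
  · rintro rfl
    rw [map_zero] at hb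
    exact mul_ne_zero hf (pow_ne_zero p hy0) hb.symm
  · rw [hb, inv_pow]
    field_simp

end Pool.Agent.N727.OL
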